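import Pool.Agent.H702.CT.Final

set_option autoImplicit false

/-!
# Testing convexity of functions on `[n]^d` in the `L1` distance

For every dimension `d` and every `δ > 0` there are adaptive testers with one-sided error which make
at most `C * (1 / ε) ^ (2 + δ)` queries, where `C` depends only on `d` and `δ`. So the exponent of
`1 / ε` need not grow with the dimension.
-/

namespace Pool.Agent.Results.MP_f23a5d_lc.ConvexityTesters

open Pool.Agent.H702.CT

theorem result (d : ℕ) (hd : 1 ≤ d) (δ : ℝ) (hδ : 0 < δ) :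
    ∃ C : ℝ, ∀ n : ℕ, 1 ≤ n → ∀ ε : ℝ, 0 < ε → ε < 1 →
      ∃ (T : Prog (Fin d → Fin n) Bool) (q : ℕ),
        IsOneSidedTester ε T ∧ T.QueriesLE q ∧ (q : ℝ) ≤ C * (1 / ε) ^ (2 + δ) := by
  obtain ⟨s, hs⟩ := exists_nat_gt (2 / δ)
  have h2δ : 0 < 2 / δ := by positivity
  have hsR : (0 : ℝ) < s := h2δ.trans hs
  have hs1 : 1 ≤ s := by exact_mod_cast hsR
  obtain ⟨C, hC⟩ := exists_testers d s hd hs1
  refine ⟨|C|, fun n hn ε hε hε1 => ?_⟩
  obtain ⟨T, q, hq, hqC, hcomp, hsound⟩ := hC ε hε hε1 n hn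
  have hprob : ∀ f, T.prob f true = T.expect f accI := fun f => rfl
  have hprob' : ∀ f, T.prob f false = 1 - T.expect f accI := by
    intro f
    have h1 : T.prob f false + T.expect f accI = 1 := by
      unfold Prog.prob
      rw [← Prog.expect_add]
      have h2 : (fun r : Bool => (if r = false then (1 : ℝ) else 0) + accI r) = fun _ => 1 := by
        funext r
        cases r <;> simp [accI]
      rw [h2, Prog.expect_const]
    linarith
  refine ⟨T, q, ⟨fun f hf => ?_, fun f hf hfar => ?_⟩, hq, hqC.trans ?_⟩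
  · rw [hprob]; exact hcomp f hf
  · rw [hprob']
    have := hsound f hf hfar
    linarith
  · have hE1 : 1 ≤ 1 / ε := by rw [le_div_iff₀ hε]; linarith
    have h1 : (1 / ε) ^ (2 + 2 / (s : ℝ)) ≤ (1 / ε) ^ (2 + δ) := by
      apply Real.rpow_le_rpow_of_exponent_le hE1
      have : 2 / (s : ℝ) ≤ δ := by
        rw [div_le_iff₀ hsR]
        rw [div_lt_iff₀ hδ] at hs
        linarith
      linarith
    have h2 : (0 : ℝ) ≤ (1 / ε) ^ (2 + 2 / (s : ℝ)) := by positivity
    calc C * (1 / ε) ^ (2 + 2 / (s : ℝ)) ≤ |C| * (1 / ε) ^ (2 + 2 / (s : ℝ)) := by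
          gcongr
          exact le_abs_self C
      _ ≤ |C| * (1 / ε) ^ (2 + δ) := by gcongr

end Pool.Agent.Results.MP_f23a5d_lc.ConvexityTesters
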